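import Mathlib
import Pool.Agent.H39.VQ.Targets

set_option autoImplicit false

open Finset

namespace Pool.Agent.H20.VQ

open Pool.Agent.H39.VQ

section
variable {G : Type} [AddCommGroup G]

lemma am_mono (M : ℕ) (u : G) (f f' : G → ℝ) (h : ∀ g, f g ≤ f' g) (g : G) :
    am M u f g ≤ am M u f' g := by
  unfold am
  exact mul_le_mul_of_nonneg_left (Finset.sum_le_sum fun t _ => h _) (by positivity)

lemma am_le (M : ℕ) (hM : 0 < M) (u : G) (f : G → ℝ) (B : ℝ) (h : ∀ g, f g ≤ B) (g : G) :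
    am M u f g ≤ B := by
  unfold am
  have hM' : (0 : ℝ) < (M : ℝ) := by exact_mod_cast hM
  have h1 : ∑ t ∈ range M, f (g + t • u) ≤ (M : ℝ) * B := by
    have := Finset.sum_le_card_nsmul (range M) (fun t => f (g + t • u)) B (fun t _ => h _)
    simpa [nsmul_eq_mul] using this
  calc (M : ℝ)⁻¹ * ∑ t ∈ range M, f (g + t • u) ≤ (M : ℝ)⁻¹ * ((M : ℝ) * B) :=
        mul_le_mul_of_nonneg_left h1 (by positivity)
    _ = B := by field_simp

lemma am_nonneg (M : ℕ) (u : G) (f : G → ℝ) (h : ∀ g, 0 ≤ f g) (g : G) :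
    0 ≤ am M u f g := by
  unfold am
  exact mul_nonneg (by positivity) (Finset.sum_nonneg fun t _ => h _)

lemma am_total [Fintype G] (M : ℕ) (hM : 0 < M) (u : G) (f : G → ℝ) :
    ∑ g, am M u f g = ∑ g, f g := by
  unfold am
  have hM' : (M : ℝ) ≠ 0 := by
    have : (0 : ℝ) < (M : ℝ) := by exact_mod_cast hM
    exact this.ne'
  rw [← Finset.mul_sum, Finset.sum_comm]
  have h1 : ∀ t ∈ range M, ∑ g, f (g + t • u) = ∑ g, f g := by
    intro t _
    exact Fintype.sum_equiv (Equiv.addRight (t • u)) _ _ (fun g => rfl)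
  rw [Finset.sum_congr rfl h1]
  simp only [Finset.sum_const, Finset.card_range, nsmul_eq_mul]
  field_simp

lemma am_sum {K : Type} [Field K] (M : ℕ) (u : G) (S : Finset ℕ) (f : ℕ → G → K) :
    am M u (fun g => ∑ i ∈ S, f i g) = fun g => ∑ i ∈ S, am M u (f i) g := by
  funext g
  unfold am
  rw [Finset.sum_comm, Finset.mul_sum]

lemma am_ofReal (M : ℕ) (u : G) (f : G → ℝ) :
    am M u (fun g => ((f g : ℝ) : ℂ)) = fun g => ((am M u f g : ℝ) : ℂ) := by
  funext g
  unfold am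
  push_cast
  rfl

end

theorem pf_AV : V_AV := by
  intro p L j l c G _ u0 u1 u2 hp
  have hp0 : 0 < p := by omega
  have hpow : ∀ e : ℕ, 0 < p ^ e := fun e => Nat.pow_pos hp0
  refine ⟨?_, ?_, ?_, ?_, ?_, ?_⟩
  · intro f f' h g
    unfold AA
    exact am_mono _ _ _ _ (am_mono _ _ _ _ (am_mono _ _ _ _ h)) g
  · intro f B h g
    unfold AA
    exact am_le _ (hpow _) _ _ _ (am_le _ (hpow _) _ _ _ (am_le _ (hpow _) _ _ _ h)) g
  · intro f h g
    unfold AA
    exact am_nonneg _ _ _ (am_nonneg _ _ _ (am_nonneg _ _ _ h)) g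
  · intro _ f
    unfold AA
    rw [am_total _ (hpow _), am_total _ (hpow _), am_total _ (hpow _)]
  · intro K _ S f g
    unfold AA
    rw [am_sum, am_sum, am_sum]
  · intro f g
    unfold AA
    rw [am_ofReal, am_ofReal, am_ofReal]

end Pool.Agent.H20.VQ
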