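import Mathlib
import Pool.Agent.H39.VQ.Targets

set_option autoImplicit false

open Finset

namespace Pool.Agent.H20.VQ

open Pool.Agent.H39.VQ

lemma lv_two_pow_le_fib (n : ℕ) : 2 ^ n ≤ Nat.fib (2 * n + 2) := by
  induction n with
  | zero => simp
  | succ n ih =>
    have h1 : Nat.fib (2 * (n + 1) + 2) = Nat.fib (2 * n + 2) + Nat.fib (2 * n + 2 + 1) := by
      rw [show 2 * (n + 1) + 2 = (2 * n + 2) + 2 by ring, Nat.fib_add_two]
    have h2 : Nat.fib (2 * n + 2) ≤ Nat.fib (2 * n + 2 + 1) := Nat.fib_mono (by omega)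
    rw [pow_succ]
    omega

lemma lv_eq (k m : ℕ) : lv k m = k - (Nat.fib (m + 2) - 1) := rfl

theorem pf_LV : V_LV := by
  intro k
  refine ⟨?_, ?_, ?_, ?_, ?_, ?_⟩
  · simp [lv_eq]
  · intro m m' hm
    have h := Nat.fib_mono (show m + 2 ≤ m' + 2 by omega)
    rw [lv_eq, lv_eq]
    omega
  · intro m
    rw [lv_eq]
    omega
  · have h2 : Nat.fib (0 + 2) = 1 := by decide
    have h3 : Nat.fib (1 + 2) = 2 := by decide
    rw [lv_eq, lv_eq, h2, h3]
    omega
  · intro m hm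
    rcases Nat.lt_or_ge m 2 with h | h
    · have hm1 : m = 1 := by omega
      subst hm1
      have h2 : Nat.fib (0 + 2) = 1 := by decide
      have h3 : Nat.fib (1 + 2) = 2 := by decide
      have h4 : Nat.fib (1 + 1 + 2) = 3 := by decide
      have e : (1 : ℕ) - 2 = 0 := by norm_num
      rw [e, lv_eq, lv_eq, lv_eq, h2, h3, h4]
      omega
    · obtain ⟨n, rfl⟩ : ∃ n, m = n + 2 := ⟨m - 2, by omega⟩
      have e : n + 2 - 2 = n := by omega
      have h4 : Nat.fib (n + 2 + 2) = Nat.fib (n + 2) + Nat.fib (n + 2 + 1) := Nat.fib_add_two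
      have h5 : Nat.fib (n + 2 + 1 + 2) = Nat.fib (n + 2 + 1) + Nat.fib (n + 2 + 1 + 1) :=
        Nat.fib_add_two
      have h6 : Nat.fib (n + 2 + 1 + 1) = Nat.fib (n + 2 + 2) := rfl
      have h7 : 0 < Nat.fib (n + 2) := Nat.fib_pos.2 (by omega)
      have h8 : 0 < Nat.fib (n + 2 + 1) := Nat.fib_pos.2 (by omega)
      rw [e, lv_eq, lv_eq, lv_eq]
      omega
  · intro M hM
    have h1 : 2 ^ (Nat.log 2 (k + 1) + 2) ≤ Nat.fib (M + 2) :=
      le_trans (lv_two_pow_le_fib _) (Nat.fib_mono (by omega))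
    have h2 : k + 1 < 2 ^ (Nat.log 2 (k + 1) + 1) :=
      Nat.lt_pow_succ_log_self (by norm_num) (k + 1)
    have h3 : 2 ^ (Nat.log 2 (k + 1) + 2) = 2 ^ (Nat.log 2 (k + 1) + 1) * 2 := pow_succ _ _
    rw [lv_eq]
    omega

end Pool.Agent.H20.VQ
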