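import Mathlib
import Pool.Agent.H39.VQ.Targets

set_option autoImplicit false

open Finset

namespace Pool.Agent.H20.VQ

open Pool.Agent.H39.VQ

theorem pf_N6 : V_N6 := by
  intro p k l l' t t' x y z hll hlk ht hU
  obtain ⟨h1, h2, h3⟩ := hU
  have e1 : ex k l' ≤ ex k l := by
    unfold ex
    omega
  have e2 : 2 * (k - l) ≤ ex k l := by
    unfold ex
    exact le_max_right _ _
  have hd : (p : ℤ) ^ (l + ex k l) ∣ (t' - t) * x := by
    rw [pow_add]
    exact mul_dvd_mul ht h1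
  have hd2 : (p : ℤ) ^ (2 * k - l) ∣ (t' - t) * x := dvd_trans (pow_dvd_pow _ (by omega)) hd
  refine ⟨dvd_trans (pow_dvd_pow _ e1) h1, ?_, ?_⟩
  · have e : y - t' * x = (y - t * x) - (t' - t) * x := by ring
    rw [e]
    exact dvd_trans (pow_dvd_pow _ (by omega)) (dvd_sub h2 hd2)
  · have e : z - 2 * t' * y + t' ^ 2 * x = (z - 2 * t * y + t ^ 2 * x)
        - 2 * ((t' - t) * (y - t * x)) + (t' - t) * ((t' - t) * x) := by ring
    have g1 : (p : ℤ) ^ (l + (2 * k - l)) ∣ (t' - t) * (y - t * x) := by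
      rw [pow_add]
      exact mul_dvd_mul ht h2
    have g2 : (p : ℤ) ^ (l + (2 * k - l)) ∣ (t' - t) * ((t' - t) * x) := by
      rw [pow_add]
      exact mul_dvd_mul ht hd2
    have g1' : (p : ℤ) ^ (2 * k) ∣ (t' - t) * (y - t * x) :=
      dvd_trans (pow_dvd_pow _ (by omega)) g1
    have g2' : (p : ℤ) ^ (2 * k) ∣ (t' - t) * ((t' - t) * x) :=
      dvd_trans (pow_dvd_pow _ (by omega)) g2
    rw [e]
    exact dvd_add (dvd_sub h3 (Dvd.dvd.mul_left g1' 2)) g2'

end Pool.Agent.H20.VQ
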